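import Mathlib

/-!
# MP_3cda5a_co: a simplicial 6-polytope with `g_3 = 1` without an admissible cell complex

All complexes are finite simplicial complexes with vertices in `ℕ`.  The counterexample is the
boundary complex of a simplicial 6-polytope with 9 vertices, given by explicit coordinates.
-/

set_option autoImplicit false

open Finset

namespace Pool.Agent.Results.MP_3cda5a_co.NoCellComplex

/-! ### Definitions -/

/-- Finite (abstract) simplicial complexes with vertices in `ℕ`; the empty set is a face. -/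
structure Cplx where
  /-- the faces -/
  faces : Finset (Finset ℕ)
  empty_mem : ∅ ∈ faces
  down : ∀ F ∈ faces, ∀ G ⊆ F, G ∈ faces

/-- The set of vertices. -/
def verts (X : Finset (Finset ℕ)) : Finset ℕ := X.sup id

/-- The link of `σ`. -/
def link (X : Finset (Finset ℕ)) (σ : Finset ℕ) : Finset (Finset ℕ) :=
  X.filter fun τ => Disjoint τ σ ∧ τ ∪ σ ∈ X

section homology

variable (k : Type) [Field k]

/-- The faces with `s` elements. -/
def level (X : Finset (Finset ℕ)) (s : ℕ) : Finset (Finset ℕ) := X.filter fun τ => τ.card = s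

/-- The matrix of the simplicial boundary map from the faces `τ` with `s + 1` elements to the faces
`ρ` with `s` elements: the entry for `τ = ρ ∪ {v}` is `-1` to the number of elements of `ρ` which are
smaller than `v`. -/
def bdry (X : Finset (Finset ℕ)) (s : ℕ) : Matrix ↥(level X s) ↥(level X (s + 1)) k :=
  fun ρ τ => if ρ.1 ⊆ τ.1 then (-1) ^ (ρ.1.filter fun w => ∀ v ∈ τ.1 \ ρ.1, w < v).card else 0

/-- The reduced Betti number of `X` over `k` in dimension `s - 1`: the number of faces with `s`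
elements minus the ranks of the two boundary maps. -/
noncomputable def betti (X : Finset (Finset ℕ)) (s : ℕ) : ℤ :=
  (level X s).card - (bdry k X s).rank - (if s = 0 then 0 else (bdry k X (s - 1)).rank : ℕ)

/-- All reduced homology over `k` vanishes. -/
def Acyclic (X : Finset (Finset ℕ)) : Prop := ∀ s, betti k X s = 0

/-- `X` has the reduced homology over `k` of a sphere of dimension `m - 1`. -/
def SphereHom (X : Finset (Finset ℕ)) (m : ℕ) : Prop := ∀ s, betti k X s = if s = m then 1 else 0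

/-- `X` is pure of dimension `d - 1`: every face lies in a face with `d` elements, and there are no
larger ones. -/
def PureOf (d : ℕ) (X : Finset (Finset ℕ)) : Prop :=
  (∀ σ ∈ X, σ.card ≤ d) ∧ ∀ σ ∈ X, ∃ τ ∈ X, σ ⊆ τ ∧ τ.card = d

/-- `X` is a `k`-homology sphere of dimension `d - 1`. -/
def IsSphere (d : ℕ) (X : Cplx) : Prop :=
  PureOf d X.faces ∧ ∀ σ ∈ X.faces, SphereHom k (link X.faces σ) (d - σ.card)

open Classical in
/-- The boundary: the faces whose link has the homology of a ball. -/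
noncomputable def bd (X : Finset (Finset ℕ)) : Finset (Finset ℕ) :=
  X.filter fun σ => Acyclic k (link X σ)

/-- `X` is a `k`-homology ball of dimension `d`, with boundary complex `Y`. -/
def IsBall (d : ℕ) (X Y : Cplx) : Prop :=
  PureOf (d + 1) X.faces ∧ Acyclic k X.faces ∧
    (∀ σ ∈ X.faces, Acyclic k (link X.faces σ) ∨ SphereHom k (link X.faces σ) (d + 1 - σ.card)) ∧
    Y.faces = bd k X.faces ∧ IsSphere k d Y

end homology

/-- `τ` is a missing face of `X`. -/
def IsMissing (X : Cplx) (τ : Finset ℕ) : Prop := τ ∉ X.faces ∧ ∀ ρ ⊂ τ, ρ ∈ X.faces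

/-- The set `S(i, d - 1)` of the spheres of dimension `d - 1` all of whose missing faces have
dimension at most `i`. -/
def InS (i d : ℕ) (X : Cplx) : Prop :=
  IsSphere (ZMod 2) d X ∧ ∀ τ, IsMissing X τ → τ.card ≤ i + 1

/-- The number of faces with `j` elements. -/
def numFaces (X : Finset (Finset ℕ)) (j : ℕ) : ℕ := (level X j).card

/-- The `h`-numbers of a complex of dimension `d - 1`. -/
def hNum (d : ℕ) (X : Finset (Finset ℕ)) (j : ℕ) : ℤ :=
  ∑ i ∈ range (j + 1), (-1 : ℤ) ^ (j - i) * ((d - i).choose (d - j) : ℤ) * (numFaces X i : ℤ)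

/-- The `g`-numbers of a complex of dimension `d - 1`. -/
def gNum (d : ℕ) (X : Finset (Finset ℕ)) (j : ℕ) : ℤ :=
  if j = 0 then 1 else hNum d X j - hNum d X (j - 1)

theorem union_down (X Y : Cplx) : ∀ F ∈ X.faces ∪ Y.faces, ∀ G ⊆ F, G ∈ X.faces ∪ Y.faces := by
  intro F hF G hG
  rcases Finset.mem_union.1 hF with h | h
  · exact Finset.mem_union_left _ (X.down F h G hG)
  · exact Finset.mem_union_right _ (Y.down F h G hG)

/-- The union of two complexes. -/
def Cplx.union (X Y : Cplx) : Cplx :=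
  ⟨X.faces ∪ Y.faces, Finset.mem_union_left _ X.empty_mem, union_down X Y⟩

/-- `K` together with the exceptional cell `D` (a real homology `d`-ball, given by a triangulation,
with boundary complex `Σ = S`) is an admissible cell complex for `Δ`. -/
structure Admissible (k d : ℕ) (Δ K D S : Cplx) : Prop where
  /-- `D` is a `d`-ball and `Σ = ∂D` -/
  cell : IsBall ℝ d D S
  /-- `Σ` is contained in `K` -/
  sub : S.faces ⊆ K.faces
  /-- (1) every face of `K` of dimension at most `d - k` is a face of `Δ` -/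
  low : ∀ τ ∈ K.faces, τ.card ≤ d - k + 1 → τ ∈ Δ.faces
  /-- (2) `Σ` is in `S(d - k, d - 1)` -/
  sph : InS (d - k) d S
  /-- (2) `g_k(Σ) = 1` -/
  gOne : gNum d S.faces k = 1
  /-- (3) every face of `K` meets the cell in a face of `Σ` -/
  meet : ∀ τ ∈ K.faces, τ ∩ verts S.faces ∈ S.faces
  /-- the cell is glued to `K` along `Σ`: no other vertices are identified -/
  glue : verts K.faces ∩ verts D.faces ⊆ verts S.faces
  /-- (4) the union is a `d`-ball with boundary complex `Δ` -/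
  ball : IsBall ℝ d (K.union D) Δ

/-- `Δ` is the boundary complex of a simplicial `d`-polytope, the convex hull of the points `p v`,
where `v` runs over the vertices of `Δ`: the points do not lie on a hyperplane, and a set `F` of
vertices is a face of `Δ` if and only if it is a proper subset and its points are exactly those on
which some affine function (`ℓ - c`) attains its maximum (`0`). -/
def IsPolytopeBoundary (d : ℕ) (p : ℕ → Fin d → ℝ) (Δ : Cplx) : Prop :=
  (∀ (ℓ : (Fin d → ℝ) →ₗ[ℝ] ℝ) (c : ℝ), (∀ v ∈ verts Δ.faces, ℓ (p v) = c) → ℓ = 0) ∧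
  ∀ F, F ∈ Δ.faces ↔ F ⊂ verts Δ.faces ∧ ∃ (ℓ : (Fin d → ℝ) →ₗ[ℝ] ℝ) (c : ℝ),
    (∀ v ∈ F, ℓ (p v) = c) ∧ ∀ v ∈ verts Δ.faces, v ∉ F → ℓ (p v) < c

/-! ### The example -/

/-- the faces of the example -/
def exF : Finset (Finset ℕ) := (range 9).powerset.filter fun F =>
  ¬ {0, 1, 2, 3} ⊆ F ∧ ¬ {6, 7, 8} ⊆ F ∧ ¬ {0, 1, 2, 6, 7} ⊆ F ∧ ¬ {3, 4, 5} ⊆ F ∧ ¬ {4, 5, 8} ⊆ F

lemma mem_exF (F : Finset ℕ) : F ∈ exF ↔ F ⊆ range 9 ∧ ¬ {0, 1, 2, 3} ⊆ F ∧ ¬ {6, 7, 8} ⊆ F ∧
    ¬ {0, 1, 2, 6, 7} ⊆ F ∧ ¬ {3, 4, 5} ⊆ F ∧ ¬ {4, 5, 8} ⊆ F := by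
  unfold exF
  rw [Finset.mem_filter, Finset.mem_powerset]

/-- the example -/
def ex : Cplx where
  faces := exF
  empty_mem := by decide +kernel
  down := by
    intro F hF G hG
    rw [mem_exF] at hF ⊢
    exact ⟨hG.trans hF.1, fun h => hF.2.1 (h.trans hG), fun h => hF.2.2.1 (h.trans hG),
      fun h => hF.2.2.2.1 (h.trans hG), fun h => hF.2.2.2.2.1 (h.trans hG),
      fun h => hF.2.2.2.2.2 (h.trans hG)⟩

lemma verts_ex : verts exF = range 9 := by
  have h1 : ∀ v ∈ range 9, ({v} : Finset ℕ) ∈ exF := by decide +kernel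
  ext v
  unfold verts
  rw [Finset.mem_sup]
  constructor
  · rintro ⟨F, hF, hv⟩
    exact ((mem_exF F).1 hF).1 hv
  · intro hv
    exact ⟨{v}, h1 v hv, Finset.mem_singleton_self v⟩

theorem g_ex : gNum 6 exF 3 = 1 := by decide +kernel

/-! ### There is no admissible cell complex -/

/-- the candidates for `Σ` -/
def sg (W : Finset ℕ) : Finset (Finset ℕ) := W.powerset.filter fun F =>
  ¬ {0, 1, 2, 3} ⊆ F ∧ ¬ {6, 7, 8} ⊆ F ∧ ¬ {3, 4, 5} ⊆ F ∧ ¬ {4, 5, 8} ⊆ F

lemma mem_sg (W F : Finset ℕ) : F ∈ sg W ↔ F ⊆ W ∧ ¬ {0, 1, 2, 3} ⊆ F ∧ ¬ {6, 7, 8} ⊆ F ∧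
    ¬ {3, 4, 5} ⊆ F ∧ ¬ {4, 5, 8} ⊆ F := by
  unfold sg
  rw [Finset.mem_filter, Finset.mem_powerset]

theorem g_sg : ∀ W ∈ (range 9).powerset, gNum 6 (sg W) 3 = 1 → W = range 9 := by decide +kernel

lemma sub_verts (X : Cplx) {F : Finset ℕ} (hF : F ∈ X.faces) : F ⊆ verts X.faces :=
  Finset.le_sup (f := id) hF

lemma single_mem (X : Cplx) {v : ℕ} (hv : v ∈ verts X.faces) : ({v} : Finset ℕ) ∈ X.faces := by
  unfold verts at hv
  rw [Finset.mem_sup] at hv
  obtain ⟨F, hF, hvF⟩ := hv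
  exact X.down F hF _ (Finset.singleton_subset_iff.2 hvF)

/-- the boundary of the union is contained in `K` -/
lemma boundary_sub {Δ K D S : Cplx} (hS : S.faces = bd ℝ D.faces) (hSK : S.faces ⊆ K.faces)
    (hΔ : Δ.faces = bd ℝ (K.union D).faces) : Δ.faces ⊆ K.faces := by
  classical
  intro F hF
  by_contra hK
  rw [hΔ] at hF
  unfold bd at hF
  rw [Finset.mem_filter] at hF
  obtain ⟨hFu, hFa⟩ := hF
  have hFD : F ∈ D.faces := by
    rcases Finset.mem_union.1 hFu with h | h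
    · exact absurd h hK
    · exact h
  have hl : link (K.union D).faces F = link D.faces F := by
    ext τ
    unfold link
    rw [Finset.mem_filter, Finset.mem_filter]
    constructor
    · rintro ⟨-, h2, h3⟩
      have h4 : τ ∪ F ∈ D.faces := by
        rcases Finset.mem_union.1 h3 with h | h
        · exact absurd (K.down _ h F Finset.subset_union_right) hK
        · exact h
      exact ⟨D.down _ h4 τ Finset.subset_union_left, h2, h4⟩
    · rintro ⟨h1, h2, h3⟩
      exact ⟨Finset.mem_union_right _ h1, h2, Finset.mem_union_right _ h3⟩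
  rw [hl] at hFa
  apply hK
  apply hSK
  rw [hS]
  unfold bd
  rw [Finset.mem_filter]
  exact ⟨hFD, hFa⟩

/-- a non-face contains a missing face -/
lemma exists_missing (X : Cplx) (F : Finset ℕ) (hF : F ∉ X.faces) :
    ∃ G ⊆ F, IsMissing X G := by
  induction F using Finset.strongInduction with
  | H F ih =>
    by_cases h : ∀ ρ ⊂ F, ρ ∈ X.faces
    · exact ⟨F, subset_rfl, hF, h⟩
    · push Not at h
      obtain ⟨ρ, hρ, hρX⟩ := h
      obtain ⟨G, hG, hGm⟩ := ih ρ hρ hρX
      exact ⟨G, hG.trans hρ.1, hGm⟩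

theorem no_admissible (K D S : Cplx) : ¬ Admissible 3 6 ex K D S := by
  intro hA
  have hΔK : ex.faces ⊆ K.faces :=
    boundary_sub hA.cell.2.2.2.1 hA.sub hA.ball.2.2.2.1
  set W : Finset ℕ := verts S.faces with hW
  -- small faces
  have hsmall : ∀ F : Finset ℕ, F.card ≤ 4 → F ⊆ W → (F ∈ S.faces ↔ F ∈ exF) := by
    intro F hF hFW
    constructor
    · intro h
      exact hA.low F (hA.sub h) hF
    · intro h
      have h1 := hA.meet F (hΔK h)
      rwa [Finset.inter_eq_left.2 hFW] at h1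
  have hWr : W ⊆ range 9 := by
    intro v hv
    have h1 : ({v} : Finset ℕ) ∈ S.faces := single_mem S hv
    have h2 := (hsmall {v} (by simp) (Finset.singleton_subset_iff.2 hv)).1 h1
    exact ((mem_exF _).1 h2).1 (Finset.mem_singleton_self v)
  have hSW : S.faces = sg W := by
    ext F
    rw [mem_sg]
    constructor
    · intro hF
      have hFW : F ⊆ W := sub_verts S hF
      have key : ∀ M : Finset ℕ, M.card ≤ 4 → M ∉ exF → ¬ M ⊆ F := by
        intro M hM hMe hMF
        exact hMe ((hsmall M hM (hMF.trans hFW)).1 (S.down F hF M hMF))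
      exact ⟨hFW, key _ (by decide) (by decide +kernel), key _ (by decide) (by decide +kernel),
        key _ (by decide) (by decide +kernel), key _ (by decide) (by decide +kernel)⟩
    · rintro ⟨hFW, m1, m2, m4, m5⟩
      by_contra hF
      obtain ⟨G, hGF, hG, hGm⟩ := exists_missing S F hF
      have hGc : G.card ≤ 4 := hA.sph.2 G ⟨hG, hGm⟩
      apply hG
      rw [hsmall G hGc (hGF.trans hFW), mem_exF]
      refine ⟨(hGF.trans hFW).trans hWr, fun h => m1 (h.trans hGF), fun h => m2 (h.trans hGF), ?_,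
        fun h => m4 (h.trans hGF), fun h => m5 (h.trans hGF)⟩
      intro h
      have h5 := Finset.card_le_card h
      have h6 : ({0, 1, 2, 6, 7} : Finset ℕ).card = 5 := by decide
      omega
  have hg := hA.gOne
  rw [hSW] at hg
  have hW9 := g_sg W (Finset.mem_powerset.2 hWr) hg
  have h7 : ({0, 1, 2, 4, 5, 6, 7} : Finset ℕ) ∈ S.faces := by
    rw [hSW, hW9]
    decide +kernel
  have h8 := hA.sph.1.1.1 _ h7
  revert h8
  decide

/-! ### The polytope -/

/-- the vertices of the polytope -/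
noncomputable def pt : ℕ → Fin 6 → ℝ
  | 0 => ![-1, -1, 6, 1, 1, 0]
  | 1 => ![1, 0, 0, 0, 0, 0]
  | 2 => ![0, 1, 0, 0, 0, 0]
  | 4 => ![0, 0, 3, 2, 2, -1]
  | 5 => ![0, 0, 0, 0, 0, 1]
  | 6 => ![0, 0, 0, 1, 0, 0]
  | 7 => ![0, 0, 0, 0, 1, 0]
  | 8 => ![0, 0, 1, 0, 0, 0]
  | _ => 0

/-- the slacks of the vertices at the 27 facets -/
def sl : List (List ℕ) :=
  [[15, 0, 0, 3, 0, 0, 0, 0, 5],
   [0, 15, 0, 3, 0, 0, 0, 0, 5],
   [0, 0, 15, 3, 0, 0, 0, 0, 5],
   [0, 0, 0, 1, 5, 0, 5, 0, 0],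
   [0, 0, 0, 1, 5, 0, 0, 5, 0],
   [0, 0, 0, 1, 0, 5, 5, 0, 0],
   [0, 0, 0, 1, 0, 5, 0, 5, 0],
   [6, 0, 0, 0, 3, 0, 0, 0, 1],
   [0, 6, 0, 0, 3, 0, 0, 0, 1],
   [0, 0, 6, 0, 3, 0, 0, 0, 1],
   [6, 0, 0, 0, 0, 3, 0, 0, 1],
   [0, 6, 0, 0, 0, 3, 0, 0, 1],
   [0, 0, 6, 0, 0, 3, 0, 0, 1],
   [0, 0, 0, 9, 0, 0, 15, 0, 5],
   [0, 0, 0, 9, 0, 0, 0, 15, 5],
   [1, 0, 0, 0, 2, 0, 1, 0, 0],
   [1, 0, 0, 0, 0, 2, 1, 0, 0],
   [0, 1, 0, 0, 2, 0, 1, 0, 0],
   [0, 1, 0, 0, 0, 2, 1, 0, 0],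
   [0, 0, 1, 0, 2, 0, 1, 0, 0],
   [0, 0, 1, 0, 0, 2, 1, 0, 0],
   [1, 0, 0, 0, 2, 0, 0, 1, 0],
   [1, 0, 0, 0, 0, 2, 0, 1, 0],
   [0, 1, 0, 0, 2, 0, 0, 1, 0],
   [0, 1, 0, 0, 0, 2, 0, 1, 0],
   [0, 0, 1, 0, 2, 0, 0, 1, 0],
   [0, 0, 1, 0, 0, 2, 0, 1, 0]]

/-- the sum of the slacks at the facets which contain `F` -/
def slk (F : Finset ℕ) (v : ℕ) : ℕ :=
  ((sl.filter fun r => ∀ u ∈ F, r.getD u 0 = 0).map fun r => r.getD v 0).sum

theorem slk_spec : ∀ F ∈ exF, (∀ v ∈ range 9, slk F v = 0 ↔ v ∈ F) ∧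
    slk F 0 + slk F 1 + slk F 2 + 5 * slk F 3 = 6 * slk F 8 + slk F 6 + slk F 7 ∧
    5 * slk F 3 + slk F 4 + slk F 5 = 3 * slk F 8 + 2 * slk F 6 + 2 * slk F 7 := by
  decide +kernel

lemma pt0 : pt 0 = -pt 1 - pt 2 + (6 : ℝ) • pt 8 + pt 6 + pt 7 := by
  funext i
  fin_cases i <;> simp [pt]

lemma pt4 : pt 4 = -pt 5 + (3 : ℝ) • pt 8 + (2 : ℝ) • pt 6 + (2 : ℝ) • pt 7 := by
  funext i
  fin_cases i <;> simp [pt]

lemma exposed {F : Finset ℕ} (hF : F ∈ exF) : ∃ (ℓ : (Fin 6 → ℝ) →ₗ[ℝ] ℝ) (c : ℝ),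
    (∀ v ∈ F, ℓ (pt v) = c) ∧ ∀ v ∈ range 9, v ∉ F → ℓ (pt v) < c := by
  obtain ⟨h1, h2, h3⟩ := slk_spec F hF
  have h2' : (slk F 0 : ℝ) + slk F 1 + slk F 2 + 5 * slk F 3 = 6 * slk F 8 + slk F 6 + slk F 7 := by
    exact_mod_cast h2
  have h3' : 5 * (slk F 3 : ℝ) + slk F 4 + slk F 5 = 3 * slk F 8 + 2 * slk F 6 + 2 * slk F 7 := by
    exact_mod_cast h3
  obtain ⟨ℓ, hℓ⟩ : ∃ ℓ : (Fin 6 → ℝ) →ₗ[ℝ] ℝ, ∀ x, ℓ x =
      ((slk F 3 : ℝ) - slk F 1) * x 0 + ((slk F 3 : ℝ) - slk F 2) * x 1 +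
      ((slk F 3 : ℝ) - slk F 8) * x 2 + ((slk F 3 : ℝ) - slk F 6) * x 3 +
      ((slk F 3 : ℝ) - slk F 7) * x 4 + ((slk F 3 : ℝ) - slk F 5) * x 5 := by
    refine ⟨((slk F 3 : ℝ) - slk F 1) • LinearMap.proj 0 + ((slk F 3 : ℝ) - slk F 2) • LinearMap.proj 1 +
      ((slk F 3 : ℝ) - slk F 8) • LinearMap.proj 2 + ((slk F 3 : ℝ) - slk F 6) • LinearMap.proj 3 +
      ((slk F 3 : ℝ) - slk F 7) • LinearMap.proj 4 + ((slk F 3 : ℝ) - slk F 5) • LinearMap.proj 5,
      fun x => ?_⟩
    simp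
  have hv : ∀ v ∈ range 9, ℓ (pt v) = (slk F 3 : ℝ) - slk F v := by
    intro v hv
    rw [Finset.mem_range] at hv
    rw [hℓ]
    interval_cases v <;> simp [pt] <;> linarith
  refine ⟨ℓ, slk F 3, fun v hvF => ?_, fun v hv9 hvF => ?_⟩
  · have hv9 : v ∈ range 9 := ((mem_exF F).1 hF).1 hvF
    rw [hv v hv9, (h1 v hv9).2 hvF]
    simp
  · rw [hv v hv9]
    have h4 : 0 < slk F v := Nat.pos_of_ne_zero fun h => hvF ((h1 v hv9).1 h)
    have h5 : (0 : ℝ) < slk F v := by exact_mod_cast h4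
    linarith

theorem polytope_ex : IsPolytopeBoundary 6 pt ex := by
  have hV : verts ex.faces = range 9 := verts_ex
  unfold IsPolytopeBoundary
  rw [hV]
  constructor
  · intro ℓ c h
    have h3 : ℓ (pt 3) = c := h 3 (by simp)
    have hc : c = 0 := by
      rw [← h3]
      have : pt 3 = 0 := rfl
      rw [this, map_zero]
    apply (Pi.basisFun ℝ (Fin 6)).ext
    intro i
    rw [LinearMap.zero_apply]
    have e : ∃ v ∈ range 9, (Pi.basisFun ℝ (Fin 6)) i = pt v := by
      fin_cases i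
      · refine ⟨1, by simp, ?_⟩
        funext j
        fin_cases j <;> simp [pt]
      · refine ⟨2, by simp, ?_⟩
        funext j
        fin_cases j <;> simp [pt]
      · refine ⟨8, by simp, ?_⟩
        funext j
        fin_cases j <;> simp [pt]
      · refine ⟨6, by simp, ?_⟩
        funext j
        fin_cases j <;> simp [pt]
      · refine ⟨7, by simp, ?_⟩
        funext j
        fin_cases j <;> simp [pt]
      · refine ⟨5, by simp, ?_⟩
        funext j
        fin_cases j <;> simp [pt]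
    obtain ⟨v, hv, hve⟩ := e
    rw [hve, h v hv, hc]
  · intro F
    constructor
    · intro hF
      have hF' : F ∈ exF := hF
      refine ⟨?_, exposed hF'⟩
      rw [Finset.ssubset_iff_subset_ne]
      refine ⟨((mem_exF F).1 hF').1, ?_⟩
      rintro rfl
      exact ((mem_exF _).1 hF').2.1 (by decide)
    · rintro ⟨hF9, ℓ, c, hin, hout⟩
      obtain ⟨v, hv9, hvF⟩ := Finset.exists_of_ssubset hF9
      have hle : ∀ u ∈ range 9, ℓ (pt u) ≤ c := by
        intro u hu
        by_cases h : u ∈ F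
        · exact (hin u h).le
        · exact (hout u hu h).le
      have e0 : ℓ (pt 0) = -ℓ (pt 1) - ℓ (pt 2) + 6 * ℓ (pt 8) + ℓ (pt 6) + ℓ (pt 7) := by
        rw [pt0]
        simp
      have e4 : ℓ (pt 4) = -ℓ (pt 5) + 3 * ℓ (pt 8) + 2 * ℓ (pt 6) + 2 * ℓ (pt 7) := by
        rw [pt4]
        simp
      have e3 : ℓ (pt 3) = 0 := by
        have : pt 3 = 0 := rfl
        rw [this, map_zero]
      have l0 := hle 0 (by simp)
      have l1 := hle 1 (by simp)
      have l2 := hle 2 (by simp)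
      have l3 := hle 3 (by simp)
      have l4 := hle 4 (by simp)
      have l5 := hle 5 (by simp)
      have l6 := hle 6 (by simp)
      have l7 := hle 7 (by simp)
      have l8 := hle 8 (by simp)
      have lv := hout v hv9 hvF
      rw [Finset.mem_range] at hv9
      change F ∈ exF
      rw [mem_exF]
      refine ⟨hF9.1, fun h => ?_, fun h => ?_, fun h => ?_, fun h => ?_, fun h => ?_⟩
      · have a0 := hin 0 (h (by simp))
        have a1 := hin 1 (h (by simp))
        have a2 := hin 2 (h (by simp))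
        have a3 := hin 3 (h (by simp))
        interval_cases v <;> linarith
      · have a6 := hin 6 (h (by simp))
        have a7 := hin 7 (h (by simp))
        have a8 := hin 8 (h (by simp))
        interval_cases v <;> linarith
      · have a0 := hin 0 (h (by simp))
        have a1 := hin 1 (h (by simp))
        have a2 := hin 2 (h (by simp))
        have a6 := hin 6 (h (by simp))
        have a7 := hin 7 (h (by simp))
        interval_cases v <;> linarith
      · have a3 := hin 3 (h (by simp))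
        have a4 := hin 4 (h (by simp))
        have a5 := hin 5 (h (by simp))
        interval_cases v <;> linarith
      · have a4 := hin 4 (h (by simp))
        have a5 := hin 5 (h (by simp))
        have a8 := hin 8 (h (by simp))
        interval_cases v <;> linarith

/-- There is a simplicial 6-polytope with 9 vertices whose boundary complex `Δ` has `g_3(Δ) = 1` and
has no admissible cell complex (`k = 3`, `d = 6`). -/
theorem result : ∃ (p : ℕ → Fin 6 → ℝ) (Δ : Cplx), IsPolytopeBoundary 6 p Δ ∧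
    (verts Δ.faces).card = 9 ∧ gNum 6 Δ.faces 3 = 1 ∧ ¬ ∃ K D S : Cplx, Admissible 3 6 Δ K D S := by
  refine ⟨pt, ex, polytope_ex, ?_, g_ex, ?_⟩
  · have h : verts ex.faces = range 9 := verts_ex
    rw [h, Finset.card_range]
  · rintro ⟨K, D, S, h⟩
    exact no_admissible K D S h

end Pool.Agent.Results.MP_3cda5a_co.NoCellComplex
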